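import Pool.Agent.H471.EP.Ab

set_option autoImplicit false

/-!
# MP_f9aece_nt: when are the moments of zeta along a set of heights the full moments?

Let `ν_n` be ANY probability measures on `[0, T_n]`, `T_n → ∞`, which give mass `O(1 / T_n)` to the intervals of
length one (for instance the uniform measures on sets of `≫ T_n` separated points: arithmetic progressions,
the ordinates of the zeros, sets of integers of positive density, …, or densities bounded above), and let
`k ≥ 1`. We compare the shifted moment of order `2k` with respect to `ν_n`,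

`∫ |ζ(1/2 + i(t + α_1))| ² ⋯ |ζ(1/2 + i(t + α_k))| ² dν_n(t)`,

with the full moment `(1 / T_n) ∫_0^{T_n} |ζ(1/2 + i(t + α_1))| ² ⋯ |ζ(1/2 + i(t + α_k))| ² dt`, for generic
shifts `α ∈ [0, T_n] ^ k`; both are of size `(log T_n) ^ k`. The result is an exact criterion: the two moments
agree to leading order for almost all shifts (in measure) if and only if `∫ r ^ (it) dν_n(t) → 0` for
every positive rational `r ≠ 1`. In particular the condition does not depend on `k`. For the arithmetic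
progression `β, 2β, 3β, …` they agree if and only if `exp(2 π m / β)` is irrational for all `m ≥ 1`.

Proof. The products are first replaced by the products of the Dirichlet polynomials of length `T ^ θ`
(`MP_112ba8_nt.GenericShiftsAllMeasures`). The second moment over the shifts of the difference is then
a quadratic form in the difference of the two measures, with the kernel `K(t, t') ^ k`, where `K(t, t')` is close
to the sum of `(h m)⁻¹ (h / m) ^ (i(t - t'))` over the coprime pairs. A mean value theorem for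
trigonometric polynomials with respect to products of measures (Sobolev's inequality in both variables,
and the divisor bound for the number of coincidences between products of fractions) shows that the kernel
may be replaced by a polynomial of bounded length, which gives one direction. For the other one, the second moment
is bounded, so that convergence in measure implies convergence in the mean, and the Fourier coefficients of the
moments over the shifts are the Fourier coefficients of the measures.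
-/

namespace Pool.Agent.Results.MP_f9aece_nt.GenericShiftCriterion

open Complex MeasureTheory Set Filter Topology
open Pool.Agent.H471.EP (FCo fc Mz Mm un un_int un_mz ab ba)
open Pool.Agent.H471.QP (ex norm_ex ex_cont)
open Pool.Agent.Y969.GP (ff)

/-- the shifted moment of order `2k` with respect to the measure `ν` -/
noncomputable def moment (k : ℕ) (ν : Measure ℝ) (α : Fin k → ℝ) : ℝ :=
  ∫ t, ∏ j, ‖riemannZeta (1 / 2 + I * ((t + α j : ℝ) : ℂ))‖ ^ 2 ∂ν

/-- the full shifted moment of order `2k` over `[0, T]` -/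
noncomputable def full (k : ℕ) (T : ℝ) (α : Fin k → ℝ) : ℝ :=
  T⁻¹ * ∫ t in (0 : ℝ)..T, ∏ j, ‖riemannZeta (1 / 2 + I * ((t + α j : ℝ) : ℂ))‖ ^ 2

/-- for almost all shifts in `[0, T_n] ^ k` (in measure), `M_n` is the full moment, up to `o((log T_n) ^ k)` -/
def Agree (k : ℕ) (T : ℕ → ℝ) (M : ℕ → (Fin k → ℝ) → ℝ) : Prop :=
  ∀ ε : ℝ, 0 < ε → ∀ η : ℝ, 0 < η → ∀ᶠ n in atTop,
    volume {α : Fin k → ℝ | (∀ j, 0 ≤ α j ∧ α j ≤ T n) ∧ ε * Real.log (T n) ^ k < |M n α - full k (T n) α|} ≤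
      ENNReal.ofReal (η * T n ^ k)

/-- the average of the shifted products over `β, 2β, …, Nβ` -/
noncomputable def progression (k : ℕ) (β : ℝ) (N : ℕ) (α : Fin k → ℝ) : ℝ :=
  (N : ℝ)⁻¹ * ∑ n ∈ Finset.Icc 1 N, ∏ j, ‖riemannZeta (1 / 2 + I * ((β * n + α j : ℝ) : ℂ))‖ ^ 2

lemma Mm_eq (k : ℕ) (ν : Measure ℝ) (α : Fin k → ℝ) : Mm k ν α = (moment k ν α : ℂ) := by
  unfold Mm moment
  have h := integral_ofReal (𝕜 := ℂ) (μ := ν) (f := fun t => ∏ j, ‖riemannZeta (1 / 2 + I * ((t + α j : ℝ) : ℂ))‖ ^ 2)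
  refine Eq.trans ?_ h
  congr 1
  funext t
  unfold ff
  push_cast
  rfl

lemma full_eq (k : ℕ) {T : ℝ} (hT : 0 < T) (α : Fin k → ℝ) : full k T α = moment k (un T) α := by
  unfold full moment
  rw [un_int hT, smul_eq_mul]

lemma fc_eq (ν : Measure ℝ) {r : ℚ} (hr : 0 < r) : ∫ t, (r : ℂ) ^ (I * (t : ℂ)) ∂ν = fc ν (Real.log r) := by
  unfold fc ex
  congr 1
  funext t
  have h0 : (0 : ℝ) < r := by exact_mod_cast hr
  have e : ((r : ℚ) : ℂ) = (((r : ℚ) : ℝ) : ℂ) := by push_cast; rfl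
  rw [e, Complex.cpow_def_of_ne_zero (by exact_mod_cast h0.ne'), ← Complex.ofReal_log h0.le]
  congr 1
  push_cast
  ring

/-- the criterion -/
lemma crit (k : ℕ) (hk : 1 ≤ k) (C : ℝ) (T : ℕ → ℝ) (hT : Tendsto T atTop atTop) (ν : ℕ → Measure ℝ)
    (hp : ∀ n, IsProbabilityMeasure (ν n))
    (hν : ∀ᶠ n in atTop, ν n (Icc 0 (T n))ᶜ = 0 ∧ ∀ x : ℝ, ν n (Icc x (x + 1)) ≤ ENNReal.ofReal (C / T n)) :
    Agree k T (fun n => moment k (ν n)) ↔
      ∀ r : ℚ, 0 < r → r ≠ 1 → Tendsto (fun n => ∫ t, (r : ℂ) ^ (I * (t : ℂ)) ∂(ν n)) atTop (𝓝 0) := by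
  obtain ⟨k, rfl⟩ : ∃ m, k = m + 1 := ⟨k - 1, by omega⟩
  have hM : ∀ᶠ n in atTop, Mz (T n) (max C 1) (ν n) := by
    filter_upwards [hν, hT.eventually_gt_atTop 0] with n hn hT0
    refine ⟨hp n, hn.1, fun x => (hn.2 x).trans (ENNReal.ofReal_le_ofReal ?_)⟩
    gcongr
    exact le_max_left _ _
  have hF : FCo ν ↔ ∀ r : ℚ, 0 < r → r ≠ 1 → Tendsto (fun n => ∫ t, (r : ℂ) ^ (I * (t : ℂ)) ∂(ν n)) atTop (𝓝 0) := by
    unfold FCo
    refine forall_congr' fun r => forall_congr' fun hr => forall_congr' fun _ => ?_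
    simp_rw [fc_eq _ hr]
  have hA : ∀ ε η : ℝ, ((∀ᶠ n in atTop,
      volume {α : Fin (k + 1) → ℝ | (∀ j, 0 ≤ α j ∧ α j ≤ T n) ∧ ε * Real.log (T n) ^ (k + 1) <
        |moment (k + 1) (ν n) α - full (k + 1) (T n) α|} ≤ ENNReal.ofReal (η * T n ^ (k + 1))) ↔ (∀ᶠ n in atTop,
      volume {α : Fin (k + 1) → ℝ | (∀ j, 0 ≤ α j ∧ α j ≤ T n) ∧
        ε * Real.log (T n) ^ (k + 1) < ‖Mm (k + 1) (ν n) α - Mm (k + 1) (un (T n)) α‖} ≤
      ENNReal.ofReal (η * T n ^ (k + 1)))) := by
    intro ε η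
    apply eventually_congr
    filter_upwards [hT.eventually_gt_atTop 0] with n hn
    have e : ∀ α : Fin (k + 1) → ℝ, |moment (k + 1) (ν n) α - full (k + 1) (T n) α| =
        ‖Mm (k + 1) (ν n) α - Mm (k + 1) (un (T n)) α‖ := by
      intro α
      rw [Mm_eq, Mm_eq, full_eq _ hn, ← Complex.ofReal_sub, Complex.norm_real, Real.norm_eq_abs]
    simp_rw [e]
  rw [← hF]
  unfold Agree
  simp_rw [hA]
  constructor
  · intro h
    exact ab k (le_max_right _ _) hT hM h
  · intro h ε hε η hη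
    exact ba k (le_max_right _ _) hT hp hM h hε hη

/-- the measures of the progression -/
noncomputable def pm (β : ℝ) (N : ℕ) : Measure ℝ :=
  if N = 0 then Measure.dirac 0 else (N : ENNReal)⁻¹ • ∑ n ∈ Finset.Icc 1 N, Measure.dirac (β * n)

lemma pm_prob (β : ℝ) (N : ℕ) : IsProbabilityMeasure (pm β N) := by
  unfold pm
  split_ifs with h
  · infer_instance
  · refine ⟨?_⟩
    rw [Measure.smul_apply, Measure.finsetSum_apply, smul_eq_mul]
    simp only [measure_univ, Finset.sum_const, Nat.card_Icc, add_tsub_cancel_right, nsmul_eq_mul, mul_one]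
    exact ENNReal.inv_mul_cancel (by exact_mod_cast h) (ENNReal.natCast_ne_top N)

lemma pm_int {β : ℝ} {N : ℕ} (hN : N ≠ 0) {E : Type} [NormedAddCommGroup E] [NormedSpace ℝ E] [CompleteSpace E] (f : ℝ → E) :
    ∫ t, f t ∂(pm β N) = (N : ℝ)⁻¹ • ∑ n ∈ Finset.Icc 1 N, f (β * n) := by
  unfold pm
  rw [if_neg hN, integral_smul_measure, integral_finsetSum_measure]
  · simp
  · intro n _
    exact integrable_dirac (by simp)

lemma card_win {β : ℝ} (hβ : 0 < β) (N : ℕ) (x : ℝ) :
    (((Finset.Icc 1 N).filter fun n : ℕ => β * n ∈ Icc x (x + 1)).card : ℝ) ≤ 1 / β + 1 := by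
  rcases ((Finset.Icc 1 N).filter fun n : ℕ => β * n ∈ Icc x (x + 1)).eq_empty_or_nonempty with h | h
  · rw [h]
    simp
    positivity
  · obtain ⟨m, hm, hm1⟩ := Finset.exists_min_image _ (fun n : ℕ => n) h
    obtain ⟨M, hM, hM1⟩ := Finset.exists_max_image _ (fun n : ℕ => n) h
    have hsub : (Finset.Icc 1 N).filter (fun n : ℕ => β * n ∈ Icc x (x + 1)) ⊆ Finset.Icc m M := by
      intro n hn
      rw [Finset.mem_Icc]
      exact ⟨hm1 n hn, hM1 n hn⟩
    have hmM : m ≤ M := hm1 M hM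
    have h1 := (Finset.mem_filter.1 hm).2
    have h2 := (Finset.mem_filter.1 hM).2
    have h3 : (((Finset.Icc 1 N).filter fun n : ℕ => β * n ∈ Icc x (x + 1)).card : ℝ) ≤ (M - m : ℝ) + 1 := by
      have h4 := Finset.card_le_card hsub
      rw [Nat.card_Icc] at h4
      have h5 : ((M + 1 - m : ℕ) : ℝ) = (M - m : ℝ) + 1 := by
        rw [Nat.cast_sub (by omega)]
        push_cast
        ring
      rw [← h5]
      exact_mod_cast h4
    refine h3.trans (add_le_add_left ?_ 1)
    rw [le_div_iff₀ hβ]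
    nlinarith [h1.1, h2.2]

lemma pm_win {β : ℝ} (hβ : 0 < β) {N : ℕ} (hN : N ≠ 0) (x : ℝ) :
    pm β N (Icc x (x + 1)) ≤ ENNReal.ofReal ((1 + β) / (β * N)) := by
  have hN0 : (0 : ℝ) < N := by exact_mod_cast Nat.pos_of_ne_zero hN
  unfold pm
  rw [if_neg hN, Measure.smul_apply, Measure.finsetSum_apply, smul_eq_mul]
  have h1 : ∑ n ∈ Finset.Icc 1 N, Measure.dirac (β * n) (Icc x (x + 1)) =
      ((((Finset.Icc 1 N).filter fun n : ℕ => β * n ∈ Icc x (x + 1)).card : ℕ) : ENNReal) := by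
    rw [Finset.card_filter]
    push_cast
    refine Finset.sum_congr rfl fun n _ => ?_
    rw [Measure.dirac_apply' _ measurableSet_Icc, Set.indicator_apply]
    rfl
  rw [h1]
  have h2 : ((((Finset.Icc 1 N).filter fun n : ℕ => β * n ∈ Icc x (x + 1)).card : ℕ) : ENNReal) ≤ ENNReal.ofReal (1 / β + 1) := by
    rw [← ENNReal.ofReal_natCast]
    exact ENNReal.ofReal_le_ofReal (card_win hβ N x)
  calc _ ≤ (N : ENNReal)⁻¹ * ENNReal.ofReal (1 / β + 1) := by gcongr
    _ = ENNReal.ofReal ((N : ℝ)⁻¹ * (1 / β + 1)) := by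
        rw [ENNReal.ofReal_mul (by positivity), ENNReal.ofReal_inv_of_pos hN0, ENNReal.ofReal_natCast]
    _ = _ := by
        congr 1
        field_simp

lemma pm_supp {β : ℝ} (hβ : 0 < β) {N : ℕ} (hN : N ≠ 0) : pm β N (Icc 0 (β * N))ᶜ = 0 := by
  unfold pm
  rw [if_neg hN, Measure.smul_apply, Measure.finsetSum_apply, smul_eq_mul]
  have h1 : ∀ n ∈ Finset.Icc 1 N, Measure.dirac (β * n) (Icc 0 (β * N))ᶜ = 0 := by
    intro n hn
    rw [Finset.mem_Icc] at hn
    rw [Measure.dirac_apply' _ measurableSet_Icc.compl, Set.indicator_of_notMem]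
    rw [Set.notMem_compl_iff]
    have : (n : ℝ) ≤ N := by exact_mod_cast hn.2
    exact ⟨by positivity, by gcongr⟩
  rw [Finset.sum_eq_zero h1, mul_zero]

lemma fc_pm {β : ℝ} {N : ℕ} (hN : N ≠ 0) (ξ : ℝ) : fc (pm β N) ξ = (N : ℂ)⁻¹ * ∑ n ∈ Finset.Icc 1 N, ex (β * ξ) ^ n := by
  unfold fc
  rw [pm_int hN]
  rw [Complex.real_smul]
  push_cast
  congr 1
  refine Finset.sum_congr rfl fun n _ => ?_
  unfold ex
  rw [← Complex.exp_nat_mul]
  congr 1
  push_cast
  ring

lemma geo {z : ℂ} (hz : ‖z‖ = 1) (h1 : z ≠ 1) : Tendsto (fun N : ℕ => (N : ℂ)⁻¹ * ∑ n ∈ Finset.Icc 1 N, z ^ n) atTop (𝓝 0) := by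
  have hz1 : 0 < ‖z - 1‖ := norm_pos_iff.2 (sub_ne_zero.2 h1)
  rw [tendsto_zero_iff_norm_tendsto_zero]
  have hb : Tendsto (fun N : ℕ => (N : ℝ)⁻¹ * (2 / ‖z - 1‖)) atTop (𝓝 (0 * (2 / ‖z - 1‖))) :=
    (tendsto_inv_atTop_zero.comp tendsto_natCast_atTop_atTop).mul_const _
  rw [zero_mul] at hb
  apply squeeze_zero (fun n => norm_nonneg _) _ hb
  intro N
  rw [norm_mul, norm_inv, Complex.norm_natCast]
  gcongr
  have e1 : ∑ n ∈ Finset.Icc 1 N, z ^ n = z * ∑ n ∈ Finset.range N, z ^ n := by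
    induction N with
    | zero => simp
    | succ N ih => rw [Finset.sum_Icc_succ_top (by omega), ih, Finset.sum_range_succ, mul_add, ← pow_succ']
  rw [e1, norm_mul, hz, one_mul, geom_sum_eq h1, norm_div]
  gcongr
  refine (norm_sub_le _ _).trans ?_
  rw [norm_pow, hz, one_pow, norm_one]
  norm_num

lemma ex_one {x : ℝ} : ex x = 1 ↔ ∃ m : ℤ, x = m * (2 * Real.pi) := by
  unfold ex
  rw [Complex.exp_eq_one_iff]
  refine exists_congr fun m => ?_
  constructor
  · intro h
    have h2 : I * (x : ℂ) = I * ((m * (2 * Real.pi) : ℝ) : ℂ) := by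
      rw [h]
      push_cast
      ring
    exact_mod_cast mul_left_cancel₀ I_ne_zero h2
  · intro h
    rw [h]
    push_cast
    ring

/-- the Fourier coefficients of the progression -/
lemma prog_fc {β : ℝ} (hβ : 0 < β) : (∀ r : ℚ, 0 < r → r ≠ 1 →
    Tendsto (fun N => ∫ t, (r : ℂ) ^ (I * (t : ℂ)) ∂(pm β N)) atTop (𝓝 0)) ↔
      ∀ m : ℕ, 1 ≤ m → Irrational (Real.exp (2 * Real.pi * m / β)) := by
  have hpi := Real.pi_pos
  have key : ∀ ξ : ℝ, Tendsto (fun N => fc (pm β N) ξ) atTop (𝓝 0) ↔ ex (β * ξ) ≠ 1 := by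
    intro ξ
    constructor
    · intro h h1
      have h2 : ∀ᶠ N : ℕ in atTop, fc (pm β N) ξ = 1 := by
        filter_upwards [eventually_ge_atTop 1] with N hN
        have hN0 : (N : ℂ) ≠ 0 := by exact_mod_cast (by omega : N ≠ 0)
        rw [fc_pm (by omega), h1]
        simp [hN0]
      have h3 : Tendsto (fun N => fc (pm β N) ξ) atTop (𝓝 1) :=
        (tendsto_const_nhds (x := (1 : ℂ))).congr' (h2.mono fun N hN => hN.symm)
      exact zero_ne_one (tendsto_nhds_unique h h3)
    · intro h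
      refine (geo (norm_ex _) h).congr' ?_
      filter_upwards [eventually_ge_atTop 1] with N hN
      rw [fc_pm (by omega)]
  have e : ∀ r : ℚ, 0 < r → ((Tendsto (fun N => ∫ t, (r : ℂ) ^ (I * (t : ℂ)) ∂(pm β N)) atTop (𝓝 0)) ↔
      ex (β * Real.log r) ≠ 1) := by
    intro r hr
    rw [← key]
    simp_rw [fc_eq _ hr]
  constructor
  · intro h m hm hirr
    obtain ⟨r, hr⟩ := hirr
    have hm0 : (0 : ℝ) < m := by exact_mod_cast hm
    have h1 : (1 : ℝ) < r := by
      rw [hr, Real.one_lt_exp_iff]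
      positivity
    have h2 : (0 : ℚ) < r := by exact_mod_cast (by linarith : (0 : ℝ) < r)
    have h3 : r ≠ 1 := by
      rintro rfl
      norm_num at h1
    refine (e r h2).1 (h r h2 h3) ?_
    rw [ex_one, hr, Real.log_exp]
    refine ⟨m, ?_⟩
    push_cast
    field_simp
  · intro h r hr hr1
    rw [e r hr]
    intro h1
    rw [ex_one] at h1
    obtain ⟨m, hm⟩ := h1
    have hr0 : (0 : ℝ) < r := by exact_mod_cast hr
    have hlog : Real.log r = 2 * Real.pi * m / β := by
      field_simp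
      linarith
    rcases lt_trichotomy m 0 with h2 | h2 | h2
    · apply h m.natAbs (Int.natAbs_pos.2 h2.ne)
      refine ⟨r⁻¹, ?_⟩
      have h3 : (m.natAbs : ℝ) = -(m : ℝ) := by
        have : ((m.natAbs : ℤ) : ℝ) = -(m : ℝ) := by
          rw [Int.ofNat_natAbs_of_nonpos h2.le]
          push_cast
          rfl
        rw [← this, Int.cast_natCast]
      rw [h3]
      have h4 : 2 * Real.pi * -(m : ℝ) / β = -Real.log r := by rw [hlog]; ring
      rw [h4, Real.exp_neg, Real.exp_log hr0]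
      push_cast
      rfl
    · apply hr1
      rw [h2, Int.cast_zero, mul_zero, zero_div] at hlog
      have := Real.exp_log hr0
      rw [hlog, Real.exp_zero] at this
      exact_mod_cast this.symm
    · apply h m.natAbs (Int.natAbs_pos.2 h2.ne')
      refine ⟨r, ?_⟩
      have h3 : (m.natAbs : ℝ) = (m : ℝ) := by
        have : ((m.natAbs : ℤ) : ℝ) = (m : ℝ) := by rw [Int.natAbs_of_nonneg h2.le]
        rw [← this, Int.cast_natCast]
      rw [h3, ← hlog, Real.exp_log hr0]

/-- **When are the generic shifted moments along a set of heights the full moments?** -/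
theorem result :
    (∀ (k : ℕ) (C : ℝ) (T : ℕ → ℝ) (ν : ℕ → Measure ℝ), 1 ≤ k → Tendsto T atTop atTop →
      (∀ n, IsProbabilityMeasure (ν n)) →
      (∀ᶠ n in atTop, ν n (Icc 0 (T n))ᶜ = 0 ∧ ∀ x : ℝ, ν n (Icc x (x + 1)) ≤ ENNReal.ofReal (C / T n)) →
      (Agree k T (fun n => moment k (ν n)) ↔
        ∀ r : ℚ, 0 < r → r ≠ 1 → Tendsto (fun n => ∫ t, (r : ℂ) ^ (I * (t : ℂ)) ∂(ν n)) atTop (𝓝 0))) ∧
    (∀ (k : ℕ) (β : ℝ), 1 ≤ k → 0 < β →
      (Agree k (fun N => β * N) (progression k β) ↔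
        ∀ m : ℕ, 1 ≤ m → Irrational (Real.exp (2 * Real.pi * m / β)))) := by
  refine ⟨fun k C T ν hk hT hp hν => crit k hk C T hT ν hp hν, fun k β hk hβ => ?_⟩
  have hT : Tendsto (fun N : ℕ => β * (N : ℝ)) atTop atTop := tendsto_natCast_atTop_atTop.const_mul_atTop hβ
  have h1 := crit k hk (1 + β) (fun N : ℕ => β * (N : ℝ)) hT (pm β) (pm_prob β) (by
    filter_upwards [eventually_ge_atTop 1] with N hN
    exact ⟨pm_supp hβ (by omega), fun x => pm_win hβ (by omega) x⟩)
  rw [← prog_fc hβ, ← h1]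
  unfold Agree
  refine forall_congr' fun ε => forall_congr' fun _ => forall_congr' fun η => forall_congr' fun _ => ?_
  apply eventually_congr
  filter_upwards [eventually_ge_atTop 1] with N hN
  have e : ∀ α : Fin k → ℝ, progression k β N α = moment k (pm β N) α := by
    intro α
    unfold progression moment
    rw [pm_int (by omega), smul_eq_mul]
  simp_rw [e]

end Pool.Agent.Results.MP_f9aece_nt.GenericShiftCriterion
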