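import Pool.Agent.H469.F4.N13

set_option autoImplicit false

/-!
# MP_f9aece_nt. The masses of short intervals for `|μ_T(x)|^γ`: moments of real order at every scale

Let `μ_T(x) = ζ(1/2 + ix + iωT)`, `ω` uniform on `[0, 1]`, and let `X_h = ∫_a^(a+h) |μ_T(x)|^γ dx` be the mass
of an interval of length `h`, `1/log T ≤ h ≤ 1`, for the measure `|μ_T(x)|^γ dx`. Unconditionally, for all real
`γ > 0` and `1 < q ≤ 2` with `γ q ≤ 4`, uniformly in `h`, the moment `E X_h^q` has the exact order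
`(log T)^(γ² q² / 4 - q) Φ(h log T)`, where

* `Φ(y) = y^(q + q γ² / 4 - q² γ² / 4)` if `q γ² < 4` (the moment is carried by a single cluster of intervals of
  length `h`: multifractal scaling of the moments in `h`);
* `Φ(y) = y (1 + log y)` if `q γ² = 4` (all scales between `1/log T` and `h` contribute the same amount);
* `Φ(y) = y` if `q γ² > 4` (the moment is carried by intervals of length `1/log T`).

So the transition at `q γ² = 4`, with its extra factor `log log T` at `h = 1`, is established unconditionally for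
total orders `γ q ≤ 4`. For `0 < q ≤ 1` the order of the moment of the mass of a fixed interval is given too.

Proof. Upper bounds: the mean of `|ζ(1/2 + iτ)|^γ Y^(q-1)` is bounded, where `Y` is the mass of a ring
`e^(r-1)/log T ≤ |w| ≤ e^r/log T` about `τ`. The square of a Dirichlet polynomial approximating
`|ζ|^(γ(q-1))` with the primes up to `exp(e^(-r) log T)` is inserted on one side and its inverse on the other,
Hölder's inequality is applied, and the two resulting mean values of total order at most four are computed by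
the theorem on the products of shifted values of total order at most four times Dirichlet polynomials
(MP_fa2474_nt). Lower bounds: for a cell of length `e^j/log T` the `q`-th power of the mass is bounded from below
by a linear function of the mass, weighted by the square of a Dirichlet polynomial, on the set where all the
blocks of the polynomial are small. At `q γ² = 4` the cells of all the scales are made disjoint by a smooth
partition, with weights equal to normalised exponentials of the Dirichlet polynomials of the scales.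
-/

open Filter Topology MeasureTheory

namespace Pool.Agent.Results.MP_f9aece_nt.MassMomentsAllScales

/-- The mass `∫_a^b |ζ(1/2 + ix + it)|^γ dx`. -/
noncomputable def mass (γ a b t : ℝ) : ℝ :=
  ∫ x in a..b, ‖riemannZeta (1 / 2 + Complex.I * x + Complex.I * t)‖ ^ γ

/-- `(1/T) ∫_0^T (∫_a^b |ζ(1/2 + ix + it)|^γ dx)^q dt = E (∫_a^b |μ_T(x)|^γ dx)^q`. -/
noncomputable def massMoment (γ q a b T : ℝ) : ℝ := (1 / T) * ∫ t in (0 : ℝ)..T, mass γ a b t ^ q

/-- The dependence `Φ` on `y = h log T`. -/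
noncomputable def growth (γ q y : ℝ) : ℝ :=
  if q * γ ^ 2 < 4 then y ^ (q + q * γ ^ 2 / 4 - q ^ 2 * γ ^ 2 / 4)
  else if q * γ ^ 2 = 4 then y * (1 + Real.log y)
  else y

lemma mass_eq (γ a b t : ℝ) : mass γ a b t = Pool.Agent.H469.F4.Yg γ a b t := by
  unfold mass Pool.Agent.H469.F4.Yg
  refine intervalIntegral.integral_congr fun x _ => ?_
  show ‖riemannZeta (1 / 2 + Complex.I * x + Complex.I * t)‖ ^ γ = ‖riemannZeta (1 / 2 + ((t + x : ℝ) : ℂ) * Complex.I)‖ ^ γ
  congr 3
  push_cast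
  ring

lemma massMoment_eq (γ q a b T : ℝ) :
    massMoment γ q a b T = (1 / T) * ∫ t in (0 : ℝ)..T, Pool.Agent.H469.F4.Yg γ a b t ^ q := by
  unfold massMoment
  congr 1
  exact intervalIntegral.integral_congr fun t _ => by simp only [mass_eq]

theorem result (γ q a : ℝ) (hγ : 0 < γ) :
    (1 < q → q ≤ 2 → γ * q ≤ 4 → ∃ c C : ℝ, 0 < c ∧ 0 < C ∧ ∀ᶠ T : ℝ in atTop, ∀ h : ℝ, 1 / Real.log T ≤ h → h ≤ 1 →
      c * (Real.log T ^ (q ^ 2 * γ ^ 2 / 4 - q) * growth γ q (h * Real.log T)) ≤ massMoment γ q a (a + h) T ∧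
      massMoment γ q a (a + h) T ≤ C * (Real.log T ^ (q ^ 2 * γ ^ 2 / 4 - q) * growth γ q (h * Real.log T))) ∧
    (0 < q → q ≤ 1 → γ < 2 → ∀ b : ℝ, a < b → ∃ c C : ℝ, 0 < c ∧ 0 < C ∧ ∀ᶠ T : ℝ in atTop,
      c * Real.log T ^ (q * γ ^ 2 / 4) ≤ massMoment γ q a b T ∧
      massMoment γ q a b T ≤ C * Real.log T ^ (q * γ ^ 2 / 4)) ∧
    (0 < q → q ≤ 1 → 2 < γ * q → γ * q ≤ 4 → ∀ b : ℝ, a < b → ∃ c C : ℝ, 0 < c ∧ 0 < C ∧ ∀ᶠ T : ℝ in atTop,
      c * Real.log T ^ ((γ * q) ^ 2 / 4 - q + 1) ≤ massMoment γ q a b T ∧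
      massMoment γ q a b T ≤ C * Real.log T ^ ((γ * q) ^ 2 / 4 - q + 1)) := by
  simp only [massMoment_eq]
  refine ⟨?_, ?_, ?_⟩
  · intro hq1 hq2 hβ
    obtain ⟨c, C, hc, hC, hev⟩ := Pool.Agent.H469.F4.mass_scales hγ hq1 hq2 hβ a
    refine ⟨c, C, hc, hC, ?_⟩
    filter_upwards [hev, Real.tendsto_log_atTop.eventually_ge_atTop 1] with T hev hL1 h hhL hh1
    refine hev h ?_ hh1
    have hL0 : 0 < Real.log T := by linarith
    rwa [div_le_iff₀ hL0] at hhL
  · intro hq hq1 hγ2 b hab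
    have hc := Pool.Agent.H469.F4.Yg_pow_cont hγ hq a b
    have h0 : ∀ t, 0 ≤ Pool.Agent.H469.F4.Yg γ a b t ^ q := fun t =>
      Real.rpow_nonneg (Pool.Agent.H469.F4.Yg_nonneg γ hab.le t) _
    have he : 0 ≤ q * γ ^ 2 / 4 := by positivity
    have hγsq : γ ^ 2 < 4 := by nlinarith
    have hcr : q * γ ^ 2 < 4 := by nlinarith
    have hβ : γ * q ≤ 4 := by nlinarith
    obtain ⟨c, hc0, h1⟩ := Pool.Agent.H469.F4.dy_low hc h0 he
      (Pool.Agent.H469.F4.gen_low hγ hq hβ he (Pool.Agent.H469.F4.lowA hγ hγ2 hq) hab)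
    obtain ⟨C, hC0, h2⟩ := Pool.Agent.H469.F4.dy_up hc h0 he
      (Pool.Agent.H469.F4.gen_up hγ hq (Pool.Agent.H469.F4.upA hγ hγ2 hq (by linarith) hcr) hab)
    exact ⟨c, C, hc0, hC0, h1.and h2⟩
  · intro hq hq1 hβ2 hβ4 b hab
    have hc := Pool.Agent.H469.F4.Yg_pow_cont hγ hq a b
    have h0 : ∀ t, 0 ≤ Pool.Agent.H469.F4.Yg γ a b t ^ q := fun t =>
      Real.rpow_nonneg (Pool.Agent.H469.F4.Yg_nonneg γ hab.le t) _
    have hcr : 4 < q * γ ^ 2 := by nlinarith
    have he : 0 ≤ (γ * q) ^ 2 / 4 - q + 1 := by nlinarith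
    obtain ⟨c, hc0, h1⟩ := Pool.Agent.H469.F4.dy_low hc h0 he
      (Pool.Agent.H469.F4.gen_low hγ hq hβ4 he (Pool.Agent.H469.F4.lowB hγ hq hβ2 hβ4) hab)
    obtain ⟨C, hC0, h2⟩ := Pool.Agent.H469.F4.dy_up hc h0 he
      (Pool.Agent.H469.F4.gen_up hγ hq (Pool.Agent.H469.F4.upB hγ hq (by linarith) hβ2 hβ4 hcr) hab)
    exact ⟨c, C, hc0, hC0, h1.and h2⟩

end Pool.Agent.Results.MP_f9aece_nt.MassMomentsAllScales
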