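import Pool.Agent.H469.F4.PHC

set_option autoImplicit false

/-!
# MP_f9aece_nt: the prime phases under the moments of order at most four, on the critical line

Let `0 < β ≤ 4`, let `ω` be uniform on `[0, 1]` and `μ_T(x) = ζ(1/2 + ix + iωT)`. With absolute constants `c, C > 0`, for every
continuous `G ≥ 0` of the family `(p^(i(x + ωT)))_p` of the phases of ALL the primes

`c 𝔼 G ≤ liminf e^(-β² loglog T / 4) 𝔼 |μ_T(x)|^β G(phases)`, `limsup e^(-β² loglog T / 4) 𝔼 |μ_T(x)|^β G(phases) ≤ C 𝔼 G`,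

where on the outer sides `G` is taken at independent points `e(θ_p)`, `θ_p` with density proportional to `|1 - e(θ) / √p|^(-β)`.
In particular every limit law of the phases under the probability measure of density `|μ_T(x)|^β / 𝔼 |μ_T(x)|^β` has a density in
`[1/C, C]` with respect to this product law. Unconditional, on the critical line itself.
-/

open Filter MeasureTheory Topology

namespace Pool.Agent.Results.MP_f9aece_nt.PhasesOnTheCriticalLine

noncomputable section

/-- `e(x) = exp(2πix)`. -/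
def e (x : ℝ) : ℂ := Complex.exp (2 * Real.pi * Complex.I * x)

/-- The `2s`-th power `|1 - e(x) / √p|^(-2s)` of the Euler factor at `p`. -/
def euler (s : ℝ) (p : ℕ) (x : ℝ) : ℝ := ‖1 - e x / (Real.sqrt p : ℂ)‖ ^ (-(2 * s))

/-- The probability measure on `[0, 1]` whose density is proportional to `|1 - e(x) / √p|^(-2s)`. -/
def phaseLaw (s : ℝ) (p : ℕ) : Measure ℝ :=
  (volume.restrict (Set.Icc (0:ℝ) 1)).withDensity
    fun x => ENNReal.ofReal (euler s p x / ∫ y in Set.Icc (0:ℝ) 1, euler s p y)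

/-- The law of the family `(e(θ_p))_p`, where the `θ_p` are independent with laws `phaseLaw (β/2) p`. -/
def nu (β : ℝ) : Measure (Nat.Primes → ℂ) :=
  (Measure.infinitePi fun p : Nat.Primes => phaseLaw (β / 2) p).map fun θ p => e (θ p)

/-- The family `(p^(it))_p` of the phases of all the primes. -/
def phases (t : ℝ) (p : Nat.Primes) : ℂ := ((p : ℕ) : ℂ) ^ ((t : ℂ) * Complex.I)

/-- `𝔼 |μ_T(x)|^β G((p^(i(x + ωT)))_p)`, where `μ_T(x) = ζ(1/2 + ix + iωT)` and `ω` is uniform on `[0, 1]`. -/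
def moment (β x T : ℝ) (G : (Nat.Primes → ℂ) → ℝ) : ℝ :=
  ∫ u in (0 : ℝ)..1, ‖riemannZeta (1 / 2 + (x + u * T : ℝ) * Complex.I)‖ ^ β * G (phases (x + u * T))

/-- **The prime phases under the moments of order at most four, on the critical line.** -/
theorem result : ∃ c C : ℝ, 0 < c ∧ 0 < C ∧ ∀ β : ℝ, 0 < β → β ≤ 4 → IsProbabilityMeasure (nu β) ∧ ∀ x : ℝ,
    (∀ G : (Nat.Primes → ℂ) → ℝ, Continuous G → (∀ z, 0 ≤ G z) → ∀ ε : ℝ, 0 < ε → ∀ᶠ T : ℝ in atTop,
      c * (∫ z, G z ∂(nu β)) - ε ≤ Real.exp (-(1 / 4 * β ^ 2 * Real.log (Real.log T))) * moment β x T G ∧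
      Real.exp (-(1 / 4 * β ^ 2 * Real.log (Real.log T))) * moment β x T G ≤ C * (∫ z, G z ∂(nu β)) + ε) ∧
    (∀ T : ℕ → ℝ, Tendsto T atTop atTop → ∀ μ : Measure (Nat.Primes → ℂ), IsProbabilityMeasure μ →
      (∀ G : BoundedContinuousFunction (Nat.Primes → ℂ) ℝ,
        Tendsto (fun j => moment β x (T j) G / moment β x (T j) (fun _ => 1)) atTop (𝓝 (∫ z, G z ∂μ))) →
      ∀ A : Set (Nat.Primes → ℂ), MeasurableSet A →
        μ A ≤ ENNReal.ofReal C * nu β A ∧ nu β A ≤ ENNReal.ofReal C * μ A) := by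
  obtain ⟨c, C, hc, hC, h⟩ := Pool.Agent.H469.F4.phase_shift
  obtain ⟨K, hK, hl⟩ := Pool.Agent.H469.F4.limit_laws
  refine ⟨c, max C K, hc, by positivity, fun β hβ hβ4 => ⟨Pool.Agent.H469.F4.nu_prob (β / 2), fun x => ⟨?_, ?_⟩⟩⟩
  · intro G hG hG0 ε hε
    have e1 : ∫ z, G z ∂(nu β) = Pool.Agent.H469.F4.EI (β / 2) G := Pool.Agent.H469.F4.nu_int (β / 2) hG
    have hE0 : 0 ≤ Pool.Agent.H469.F4.EI (β / 2) G := integral_nonneg fun _ => hG0 _
    filter_upwards [h (β / 2) (by linarith) (by linarith) x G hG hG0 ε hε] with T hT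
    have e2 : ((β / 2) ^ 2) = 1 / 4 * β ^ 2 := by ring
    have e3 : 2 * (β / 2) = β := by ring
    rw [e2, e3] at hT
    rw [e1]
    refine ⟨hT.1, hT.2.trans ?_⟩
    have := mul_le_mul_of_nonneg_right (le_max_left C K) hE0
    linarith
  · intro T hT μ hμ hlim A hA
    have e3 : 2 * (β / 2) = β := by ring
    have h1 := hl (β / 2) (by linarith) (by linarith) x T hT μ hμ (by
      intro G
      have := hlim G
      unfold Pool.Agent.H469.F4.Mv
      rw [e3]
      exact this) A hA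
    have h2 : ENNReal.ofReal K ≤ ENNReal.ofReal (max C K) := ENNReal.ofReal_le_ofReal (le_max_right _ _)
    exact ⟨h1.1.trans (mul_le_mul_left h2 _), h1.2.trans (mul_le_mul_left h2 _)⟩

end

end Pool.Agent.Results.MP_f9aece_nt.PhasesOnTheCriticalLine
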