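import Pool.Agent.H510.SM.Tg
import Pool.Agent.H510.EX.Zd

/-!
# The moments of small order of zeta on the critical line, in every universality class

No hypothesis is assumed. It is shown that the moments `∫ |ζ(1/2 + it)| ^ β dt` of small order `β` have the predicted size
`(log T) ^ (β² / 4)`, with a constant close to `1`, not only over all heights `t ≤ T` but over the heights at which the function
`z ↦ ζ(z + it)`, in the half of the strip to the right of the line, is close to any given class of functions: the measure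
`|ζ(1/2 + it)| ^ β dt` and the function `z ↦ ζ(z + it)` are asymptotically independent, uniformly in the class, as `T → ∞` and
`β → 0` in any manner. The proof approximates `|ζ(1/2 + it)| ^ β` in `L¹` by the square of a very short Dirichlet polynomial whose
coefficients are nonnegative, decrease along divisibility, and live on integers without small prime factors.
-/

set_option autoImplicit false

open Complex Filter Topology MeasureTheory

namespace Pool.Agent.Results.MP_f9aece_nt.SmallOrdersInUniversalityClasses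

/-- the function `z ↦ ζ(z + it)` is, uniformly on `K`, at distance less than `x` from a member of the class `A` -/
def Near (K : Set ℂ) (A : Set (ℂ → ℂ)) (x t : ℝ) : Prop :=
  ∃ f ∈ A, ∃ r < x, ∀ z ∈ K, ‖riemannZeta (z + t * I) - f z‖ ≤ r

/-- the (Lebesgue) measure of the heights `t` in `(a, b]` with the property `P` -/
noncomputable def Heights (a b : ℝ) (P : ℝ → Prop) : ℝ := (volume {t : ℝ | t ∈ Set.Ioc a b ∧ P t}).toReal

/-- the moment of order `β` over the heights `t` in `(a, b]` with the property `P` -/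
noncomputable def Moment (β a b : ℝ) (P : ℝ → Prop) : ℝ :=
  ∫ t in {t : ℝ | t ∈ Set.Ioc a b ∧ P t}, ‖riemannZeta (1 / 2 + t * I)‖ ^ β

/-- a functional with values in `[0, 1]` which satisfies a Lipschitz condition for the uniform norm on `K` -/
def Functional (K : Set ℂ) (D : ℝ) (Φ : (ℂ → ℂ) → ℝ) : Prop :=
  (∀ (f g : ℂ → ℂ) (c : ℝ), 0 ≤ c → (∀ z ∈ K, ‖f z - g z‖ ≤ c) → |Φ f - Φ g| ≤ D * c) ∧ ∀ f, 0 ≤ Φ f ∧ Φ f ≤ 1

theorem result :
    -- (1) all classes `A` and all radii `x` at once, on `(T, 2T]` and on `(0, T]`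
    (∀ K : Set ℂ, IsCompact K → (∀ z ∈ K, 1 / 2 < z.re ∧ z.re < 1) → ∀ κ : ℝ, 0 < κ → ∀ ε : ℝ, 0 < ε →
      ∃ β₀ : ℝ, 0 < β₀ ∧ ∀ᶠ T : ℝ in atTop, ∀ a b : ℝ, (a = T ∧ b = 2 * T ∨ a = 0 ∧ b = T) → ∀ (A : Set (ℂ → ℂ)) (x β : ℝ),
        0 < β → β ≤ β₀ →
        Real.log T ^ (β ^ 2 / 4) * (Heights a b (Near K A x) - ε * T) ≤ Moment β a b (Near K A (x + κ)) ∧
        Moment β a b (Near K A x) ≤ Real.log T ^ (β ^ 2 / 4) * (Heights a b (Near K A (x + κ)) + ε * T)) ∧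
    -- (2) all functionals at once
    (∀ K : Set ℂ, IsCompact K → (∀ z ∈ K, 1 / 2 < z.re ∧ z.re < 1) → ∀ D : ℝ, 0 ≤ D → ∀ ε : ℝ, 0 < ε →
      ∃ β₀ : ℝ, 0 < β₀ ∧ ∀ᶠ T : ℝ in atTop, ∀ a b : ℝ, (a = T ∧ b = 2 * T ∨ a = 0 ∧ b = T) → ∀ (Φ : (ℂ → ℂ) → ℝ) (β : ℝ),
        Functional K D Φ → 0 < β → β ≤ β₀ →
        |(∫ t in a..b, Φ (fun z => riemannZeta (z + t * I)) * ‖riemannZeta (1 / 2 + t * I)‖ ^ β) -
          Real.log T ^ (β ^ 2 / 4) * ∫ t in a..b, Φ (fun z => riemannZeta (z + t * I))| ≤ ε * (T * Real.log T ^ (β ^ 2 / 4))) ∧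
    -- (3) universality carries a positive proportion of the moments
    (∀ K : Set ℂ, IsCompact K → (∀ z ∈ K, 1 / 2 < z.re ∧ z.re < 1) → IsConnected Kᶜ →
      ∀ f : ℂ → ℂ, ContinuousOn f K → DifferentiableOn ℂ f (interior K) → (∀ z ∈ interior K, f z ≠ 0) →
      ∀ x : ℝ, 0 < x → ∃ c β₀ : ℝ, 0 < c ∧ 0 < β₀ ∧ ∀ᶠ T : ℝ in atTop, ∀ β : ℝ, 0 < β → β ≤ β₀ →
        c * (T * Real.log T ^ (β ^ 2 / 4)) ≤ Moment β 0 T (fun t => ∀ z ∈ K, ‖riemannZeta (z + t * I) - f z‖ < x)) ∧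
    -- (4) the Riemann hypothesis is self-approximation of zeta for the moments
    (RiemannHypothesis ↔ ∀ K : Set ℂ, IsCompact K → (∀ z ∈ K, 1 / 2 < z.re ∧ z.re < 1) → IsConnected Kᶜ → ∀ x : ℝ, 0 < x →
      ∃ c β₀ : ℝ, 0 < c ∧ 0 < β₀ ∧ ∀ᶠ T : ℝ in atTop, ∀ β : ℝ, 0 < β → β ≤ β₀ →
        c * (T * Real.log T ^ (β ^ 2 / 4)) ≤ Moment β 0 T (fun t => ∀ z ∈ K, ‖riemannZeta (z + t * I) - riemannZeta z‖ < x)) ∧
    -- (5) the approximation in mean by the square of a short Dirichlet polynomial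
    (∀ B : ℕ, ∀ θ : ℝ, 0 < θ → ∀ ε : ℝ, 0 < ε → ∃ β₀ : ℝ, 0 < β₀ ∧ ∀ᶠ T : ℝ in atTop, ∀ β : ℝ, 0 < β → β ≤ β₀ →
      ∃ a : ℕ → ℝ, (∀ n, 0 ≤ a n) ∧ (∀ n, a n ≠ 0 → 1 ≤ n ∧ ∀ p : ℕ, p.Prime → p ∣ n → B < p) ∧
        (∀ d n : ℕ, d ∣ n → n ≠ 0 → a n ≤ a d) ∧
        ∫ t in T..(2 * T), |‖riemannZeta (1 / 2 + t * I)‖ ^ β -
          ‖∑ n ∈ Finset.Icc 1 ⌊T ^ θ⌋₊, (a n : ℂ) * (n : ℂ) ^ (-(1 / 2 + t * I))‖ ^ 2| ≤
            ε * (T * Real.log T ^ (β ^ 2 / 4))) := by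
  have h1 := H510.SM.cls_small
  -- monotonicity
  have hmono : ∀ (β a b : ℝ) (P Q : ℝ → Prop), 0 < β → (∀ t, P t → Q t) → Moment β a b P ≤ Moment β a b Q := by
    intro β a b P Q hβ h
    have hg : Continuous fun t : ℝ => ‖riemannZeta (1 / 2 + t * I)‖ ^ β :=
      Pool.Agent.Q276.KZ.zeta_cl_cont.norm.rpow_const fun _ => Or.inr hβ.le
    have hi : IntegrableOn (fun t : ℝ => ‖riemannZeta (1 / 2 + t * I)‖ ^ β) {t : ℝ | t ∈ Set.Ioc a b ∧ Q t} :=
      (hg.integrableOn_Icc (a := a) (b := b)).mono_set fun t ht => Set.Ioc_subset_Icc_self ht.1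
    refine setIntegral_mono_set hi (Filter.Eventually.of_forall fun t => Real.rpow_nonneg (norm_nonneg _) _) ?_
    exact LE.le.eventuallyLE fun t ht => ⟨ht.1, h t ht.2⟩
  have huniv : ∀ K : Set ℂ, IsCompact K → (∀ z ∈ K, 1 / 2 < z.re ∧ z.re < 1) → IsConnected Kᶜ →
      ∀ f : ℂ → ℂ, ContinuousOn f K → DifferentiableOn ℂ f (interior K) → (∀ z ∈ interior K, f z ≠ 0) →
      ∀ x : ℝ, 0 < x → ∃ c β₀ : ℝ, 0 < c ∧ 0 < β₀ ∧ ∀ᶠ T : ℝ in atTop, ∀ β : ℝ, 0 < β → β ≤ β₀ →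
        c * (T * Real.log T ^ (β ^ 2 / 4)) ≤ Moment β 0 T (fun t => ∀ z ∈ K, ‖riemannZeta (z + t * I) - f z‖ < x) := by
    intro K hK hKs hKc f hf hdf h0 x hx
    obtain ⟨p, hp, hv⟩ := H510.UZ.voronin K f hK hKs hKc hf hdf h0 (x / 2) (half_pos hx)
    obtain ⟨β₀, hβ₀, h⟩ := h1 K hK hKs (x / 2) (half_pos hx) (p / 2) (half_pos hp)
    refine ⟨p / 2, β₀, half_pos hp, hβ₀, ?_⟩
    filter_upwards [h, hv, eventually_ge_atTop (Real.exp 1)] with T hT hvT hTe β hβ0 hβ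
    have hT0 : 0 < T := lt_of_lt_of_le (Real.exp_pos _) hTe
    have hL1 : 1 ≤ Real.log T := by
      rw [Real.le_log_iff_exp_le hT0]; exact hTe
    have hP : 0 < Real.log T ^ (β ^ 2 / 4) := Real.rpow_pos_of_pos (by linarith) _
    have h2 := (hT 0 T (Or.inr ⟨rfl, rfl⟩) {f} (x / 2) β hβ0 hβ).1
    have h3 : Moment β 0 T (H510.UZ.Near K {f} (x / 2 + x / 2)) ≤
        Moment β 0 T (fun t => ∀ z ∈ K, ‖riemannZeta (z + t * I) - f z‖ < x) := by
      apply hmono _ _ _ _ _ hβ0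
      rintro t ⟨g, hg, r, hr, h4⟩ z hz
      rw [Set.mem_singleton_iff] at hg
      subst hg
      exact lt_of_le_of_lt (h4 z hz) (by linarith)
    refine le_trans ?_ (h2.trans h3)
    calc p / 2 * (T * Real.log T ^ (β ^ 2 / 4)) = Real.log T ^ (β ^ 2 / 4) * (p * T - p / 2 * T) := by ring
      _ ≤ _ := by gcongr
  refine ⟨h1, ?_, huniv, ?_, H510.SM.approx⟩
  · intro K hK hKs D hD ε hε
    obtain ⟨k₁, hk₁, hk₁1, g1⟩ := H510.SM.mom_all K hK hKs D hD ε hε
    obtain ⟨k₂, hk₂, hk₂1, g2⟩ := H510.SM.mom_glob K hK hKs D hD ε hε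
    refine ⟨2 * min k₁ k₂, by positivity, ?_⟩
    filter_upwards [g1, g2] with T g1 g2 a b hab Φ β hΦ hβ0 hβ
    have hF : H510.PC.Fun K D Φ := ⟨hΦ.1, fun f => (hΦ.2 f).1, fun f => (hΦ.2 f).2⟩
    have e1 : β ^ 2 / 4 = (β / 2) ^ 2 := by ring
    have e2 : 2 * (β / 2) = β := by ring
    have hk0 : 0 < β / 2 := by linarith
    have hkm : β / 2 ≤ min k₁ k₂ := by linarith
    have q1 := g1 Φ hF (β / 2) hk0 (hkm.trans (min_le_left _ _))
    have q2 := g2 Φ hF (β / 2) hk0 (hkm.trans (min_le_right _ _))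
    rw [e2] at q1 q2
    rw [e1]
    rcases hab with ⟨ha, hb⟩ | ⟨ha, hb⟩
    · rw [ha, hb]; exact q1
    · rw [ha, hb]; exact q2
  · constructor
    · intro hRH K hK hKs hKc x hx
      rw [H510.UZ.rh_iff] at hRH
      have hne : ∀ z ∈ K, z ≠ 1 := by
        rintro z hz rfl
        have := (hKs 1 hz).2
        simp at this
      exact huniv K hK hKs hKc riemannZeta
        (fun z hz => (differentiableAt_riemannZeta (hne z hz)).continuousAt.continuousWithinAt)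
        (fun z hz => (differentiableAt_riemannZeta (hne z (interior_subset hz))).differentiableWithinAt)
        (fun z hz => hRH z (hKs z (interior_subset hz)).1 (hKs z (interior_subset hz)).2) x hx
    · intro h
      apply H510.EX.rh_of_self
      intro K hK hKs hKc x hx ε hε
      obtain ⟨c, β₁, hc, hβ₁, h2⟩ := h K hK hKs hKc (x / 2) (half_pos hx)
      obtain ⟨β₂, hβ₂, h3⟩ := h1 K hK hKs (x / 4) (by positivity) (c / 2) (half_pos hc)
      have hpw : ∀ᶠ T : ℝ in atTop, T ^ (-ε) ≤ c / 2 := (tendsto_rpow_neg_atTop hε).eventually_le_const (half_pos hc)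
      have key : ∀ᶠ T : ℝ in atTop, T ^ (1 - ε) ≤ H510.UZ.Ms 0 T (H510.UZ.Near K {riemannZeta} x) := by
        filter_upwards [h2, h3, hpw, eventually_ge_atTop (Real.exp 1)] with T h2 h3 hpw hTe
        have hT0 : 0 < T := lt_of_lt_of_le (Real.exp_pos _) hTe
        have hL1 : 1 ≤ Real.log T := by
          rw [Real.le_log_iff_exp_le hT0]; exact hTe
        set β := min β₁ β₂ with hβ
        have hβ0 : 0 < β := by positivity
        have hP : 0 < Real.log T ^ (β ^ 2 / 4) := Real.rpow_pos_of_pos (by linarith) _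
        have h4 := h2 β hβ0 (min_le_left _ _)
        have h5 := (h3 0 T (Or.inr ⟨rfl, rfl⟩) {riemannZeta} (3 * x / 4) β hβ0 (min_le_right _ _)).2
        have h6 : Moment β 0 T (fun t => ∀ z ∈ K, ‖riemannZeta (z + t * I) - riemannZeta z‖ < x / 2) ≤
            Moment β 0 T (H510.UZ.Near K {riemannZeta} (3 * x / 4)) := by
          apply hmono _ _ _ _ _ hβ0
          intro t ht
          exact ⟨riemannZeta, rfl, x / 2, by linarith, fun z hz => (ht z hz).le⟩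
        have h7 : c * (T * Real.log T ^ (β ^ 2 / 4)) ≤
            Real.log T ^ (β ^ 2 / 4) * (H510.UZ.Ms 0 T (H510.UZ.Near K {riemannZeta} (3 * x / 4 + x / 4)) + c / 2 * T) :=
          h4.trans (h6.trans h5)
        have e1 : 3 * x / 4 + x / 4 = x := by ring
        rw [e1] at h7
        have h8 : c * T ≤ H510.UZ.Ms 0 T (H510.UZ.Near K {riemannZeta} x) + c / 2 * T := by
          rw [show c * (T * Real.log T ^ (β ^ 2 / 4)) = Real.log T ^ (β ^ 2 / 4) * (c * T) by ring] at h7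
          exact le_of_mul_le_mul_left h7 hP
        have h9 : T ^ (1 - ε) ≤ c / 2 * T := by
          rw [show (1:ℝ) - ε = -ε + 1 by ring, Real.rpow_add hT0, Real.rpow_one]
          gcongr
        linarith
      exact key.frequently

end Pool.Agent.Results.MP_f9aece_nt.SmallOrdersInUniversalityClasses
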